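import Pool.Agent.H26.LM.Defs

/-!
# Transfer between two variations over a curve
-/

noncomputable section

namespace GD

open Complex

/-- `P` and `Q` are fibres at the same point of two polarised variations on a curve over the
algebraic numbers. The example is the cohomology, in different degrees, of two smooth projective
families over a curve, where `deck` consists of all deck transformations with their two monodromy
operators. -/
structure TwoFam (P Q : Str) where
  /-- the curve -/
  B : Curve
  /-- the variation with the fibre `P` -/
  HP : Variation B P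
  /-- the variation with the fibre `Q` -/
  HQ : Variation B Q
  /-- the common parameter of the fibres -/
  s : ℂ
  hs : s ∈ B.U ∧ B.x s ∈ Qbar
  dR_P : P.D = Submodule.span Qbar (Set.range fun i => HP.ω i s)
  dR_Q : Q.D = Submodule.span Qbar (Set.range fun i => HQ.ω i s)
  /-- deck transformations with their monodromy operators on both fibres -/
  deck : Set (Deck P × Deck Q)
  deck_mem : ∀ g ∈ deck, g.1 ∈ HP.deck ∧ g.2 ∈ HQ.deck ∧ g.1.move = g.2.move
  /-- the connections have regular singularities: a polynomial in the periods of both variations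
  and regular functions on the curve, which is invariant under the deck transformations, is a
  regular function on the curve over the complex numbers -/
  regular : ∀ h ∈ B.periodRing HP.ω ⊔ B.periodRing HQ.ω,
    (∀ g ∈ deck, ∀ z ∈ B.U, h (g.1.move z) = h z) →
      ∃ (k : ℕ) (c : Fin k → ℂ) (a : Fin k → ℂ → ℂ), (∀ j, Reg B.A (a j)) ∧
        ∀ z ∈ B.U, h z = ∑ j, c j * a j z

variable {P Q : Str}

/-- The linear map `f` is a homomorphism of local systems. -/
def TwoFam.FlatHom (V : TwoFam P Q) (f : Q.W →ₗ[ℂ] P.W) : Prop :=
  ∀ g ∈ V.deck, ∀ w, f (g.2.act w) = g.1.act (f w)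

/-- `φ` is an isomorphism between the local systems of the two variations, which respects the Betti
data and is linear over the field `K`. Nothing is assumed on the de Rham data. Up to scalars it is
the only homomorphism of local systems, linear over `K`, between the parts on which `K` acts through
one embedding `τ` (by Schur's lemma this holds if the parts are irreducible), and it adds `n τ` to
the Hodge types of this part. -/
structure TwoFam.Iso (V : TwoFam P Q) {K : Type} [Field K] (κ : Act K P) (μ : Act K Q)
    (φ : Q.W ≃ₗ[ℂ] P.W) (n : (K →+* ℂ) → ℕ) : Prop where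
  act : ∀ a, IsHom P P (κ a) ∧ IsHom Q Q (μ a)
  one : κ 1 = 1 ∧ μ 1 = 1
  flat : V.FlatHom φ
  betti : ∀ w ∈ Q.B, φ w ∈ P.B
  lin : ∀ a w, φ (μ a w) = κ a (φ w)
  unique : ∀ f, V.FlatHom f → (∀ a w, f (μ a w) = κ a (f w)) →
    ∀ τ, ∃ c : ℂ, ∀ w ∈ eigenpart μ τ, f w = c • φ w
  hodge : ∀ τ p, ∀ w ∈ eigenpart μ τ ⊓ Q.hodge p, φ w ∈ P.hodge (p + n τ)

end GD
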