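import Pool.Agent.H51.GD.Defs
import Pool.Agent.H27.GD.RkOne
import Pool.Agent.H26.FC.Alg

/-!
# The evaluation
-/

noncomputable section

namespace GD

open Complex NumberField Module

section proj

variable {S : Str} {K : Type} [Field K] [NumberField K] (μ : Act K S)

/-- The projector to the part on which `K` acts through `τ`. -/
def evp (τ : K →+* ℂ) : S.W →ₗ[ℂ] S.W := ∑ i, τ (bad K i) • μ (bas K i)

theorem evp_apply (τ : K →+* ℂ) (w : S.W) :
    evp μ τ w = ∑ i, τ (bad K i) • μ (bas K i) w := by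
  rw [evp, LinearMap.sum_apply]
  rfl

theorem evp_rat (q : ℚ) (a : K) (w : S.W) : μ (q • a) w = (q : ℂ) • μ a w := by
  have h1 : μ (q • a) = q • μ a := map_rat_smul μ q a
  rw [h1, LinearMap.smul_apply, ratC_smul]

theorem evp_mem (τ : K →+* ℂ) (x : S.W) : evp μ τ x ∈ eigenpart μ τ := by
  rw [mem_eigenpart]
  intro a
  have h1 : μ a (evp μ τ x) = ∑ i, τ (bad K i) • μ (a * bas K i) x := by
    rw [evp_apply, map_sum]
    refine Finset.sum_congr rfl fun i _ => ?_
    rw [map_smul, map_mul]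
    rfl
  have h2 : ∀ i, μ (a * bas K i) x =
      ∑ j, ((Algebra.trace ℚ K (bad K j * (a * bas K i)) : ℚ) : ℂ) • μ (bas K j) x := by
    intro i
    conv_lhs => rw [bas_exp K (a * bas K i)]
    rw [map_sum, LinearMap.sum_apply]
    exact Finset.sum_congr rfl fun j _ => evp_rat μ _ _ _
  have h3 : ∀ j, ∑ i, τ (bad K i) *
      ((Algebra.trace ℚ K (bad K j * (a * bas K i)) : ℚ) : ℂ) = τ a * τ (bad K j) := by
    intro j
    rw [← map_mul]
    conv_rhs => rw [bad_exp K (a * bad K j)]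
    rw [map_sum]
    refine Finset.sum_congr rfl fun i _ => ?_
    rw [emb_rat_smul, mul_comm]
    congr 3
    ring
  rw [h1]
  simp only [h2, Finset.smul_sum, smul_smul]
  rw [Finset.sum_comm]
  simp only [← Finset.sum_smul, h3]
  rw [evp_apply, Finset.smul_sum]
  simp only [smul_smul]

/-- The action is the sum of the actions on the parts. -/
theorem sum_evp (a : K) (w : S.W) : ∑ τ : K →+* ℂ, τ a • evp μ τ w = μ a w := by
  have h1 : ∀ τ : K →+* ℂ, τ a • evp μ τ w = ∑ i, (τ a * τ (bad K i)) • μ (bas K i) w := by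
    intro τ
    rw [evp_apply, Finset.smul_sum]
    exact Finset.sum_congr rfl fun i _ => smul_smul _ _ _
  simp only [h1]
  rw [Finset.sum_comm]
  simp only [← Finset.sum_smul]
  conv_rhs => rw [bas_exp K a, map_sum, LinearMap.sum_apply]
  refine Finset.sum_congr rfl fun i _ => ?_
  rw [evp_rat, trace_sum]
  congr 1
  exact Finset.sum_congr rfl fun τ _ => by rw [map_mul, mul_comm]

variable {μ}

theorem evp_D (hμ : ∀ a, IsHom S S (μ a)) (τ : K →+* ℂ) {w : S.W} (hw : w ∈ S.D) :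
    evp μ τ w ∈ S.D := by
  rw [evp_apply]
  exact Submodule.sum_mem _ fun i _ => S.D_smul (emb_alg K _ _) ((hμ _).deRham _ hw)

theorem evp_hodge (hμ : ∀ a, IsHom S S (μ a)) (τ : K →+* ℂ) {p : ℕ} {w : S.W}
    (hw : w ∈ S.hodge p) : evp μ τ w ∈ S.hodge p := by
  rw [evp_apply]
  exact Submodule.sum_mem _ fun i _ => Submodule.smul_mem _ _ ((hμ _).hodge p _ hw)

end proj

variable {P Q : Str} {V : TwoFam P Q} {K : Type} [Field K] [NumberField K] {κ : Act K P}
  {μ : Act K Q} {φ : Q.W ≃ₗ[ℂ] P.W} {n : (K →+* ℂ) → ℕ}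

/-- The evaluation map. -/
private def evb (μ : Act K Q) (φ : Q.W ≃ₗ[ℂ] P.W) :
    ((K →+* ℂ) → ℂ) →ₗ[ℂ] Q.W →ₗ[ℂ] P.W :=
  LinearMap.mk₂ ℂ (fun x w => ∑ τ, x τ • φ (evp μ τ w))
    (fun x x' w => by
      rw [← Finset.sum_add_distrib]
      exact Finset.sum_congr rfl fun τ _ => by rw [Pi.add_apply, add_smul])
    (fun c x w => by
      rw [Finset.smul_sum]
      exact Finset.sum_congr rfl fun τ _ => by rw [Pi.smul_apply, smul_smul, smul_eq_mul])
    (fun x w w' => by
      rw [← Finset.sum_add_distrib]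
      exact Finset.sum_congr rfl fun τ _ => by rw [map_add, map_add, smul_add])
    (fun c x w => by
      rw [Finset.smul_sum]
      exact Finset.sum_congr rfl fun τ _ => by rw [map_smul, map_smul, smul_comm])

private theorem evb_apply (μ : Act K Q) (φ : Q.W ≃ₗ[ℂ] P.W) (x : (K →+* ℂ) → ℂ) (w : Q.W) :
    evb μ φ x w = ∑ τ, x τ • φ (evp μ τ w) := rfl

private theorem evb_rat (μ : Act K Q) (φ : Q.W ≃ₗ[ℂ] P.W) {x : (K →+* ℂ) → ℂ} {a : K}
    (hx : ∀ τ, x τ = τ a) (w : Q.W) : evb μ φ x w = φ (μ a w) := by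
  rw [evb_apply, ← sum_evp μ a w, map_sum]
  exact Finset.sum_congr rfl fun τ _ => by rw [hx, map_smul]

/-- `P` is a quotient of the tensor product of a structure of rank one with `Q`. -/
theorem TwoFam.Iso.exists_eval (h : V.Iso κ μ φ n) (r : DT.RkOne K) (hp : r.p = n)
    (hwt : r.wt + Q.wt = P.wt) (hD : ∀ τ, ∀ w ∈ Q.D, w ∈ eigenpart μ τ → r.c τ • φ w ∈ P.D) :
    ∃ β : r.str.W →ₗ[ℂ] Q.W →ₗ[ℂ] P.W, IsBil r.str Q P β ∧
      LinearMap.range (TensorProduct.lift β) = ⊤ := by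
  refine ⟨evb μ φ, ⟨hwt.symm, ?_, ?_, ?_⟩, ?_⟩
  · rintro (x : (K →+* ℂ) → ℂ) ⟨a, ha⟩ w hw
    have h1 : evb μ φ x w ∈ P.B := by
      rw [evb_rat μ φ ha]
      exact h.betti _ ((h.act a).2.betti w hw)
    exact h1
  · intro (x : (K →+* ℂ) → ℂ) hx w hw
    choose a ha using hx
    have h1 : evb μ φ x w ∈ P.D := by
      rw [evb_apply]
      refine Submodule.sum_mem _ fun τ _ => ?_
      rw [ha τ, mul_smul]
      exact P.D_smul (alg_coe (a τ))
        (hD τ _ (evp_D (fun a => (h.act a).2) τ hw) (evp_mem μ τ w))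
    exact h1
  · intro p q (x : (K →+* ℂ) → ℂ) hx w hw
    have h1 : evb μ φ x w ∈ P.hodge (p + q) := by
      rw [evb_apply]
      refine Submodule.sum_mem _ fun τ _ => ?_
      by_cases hτ : r.p τ = p
      · have h2 := h.hodge τ q (evp μ τ w)
          ⟨evp_mem μ τ w, evp_hodge (fun a => (h.act a).2) τ hw⟩
        rw [← hp, hτ, add_comm q p] at h2
        exact Submodule.smul_mem _ _ h2
      · have h2 : x τ = 0 := hx τ hτ
        rw [h2, zero_smul]
        exact zero_mem _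
    exact h1
  · rw [LinearMap.range_eq_top]
    intro y
    refine ⟨TensorProduct.tmul ℂ (fun _ => (1 : ℂ) : (K →+* ℂ) → ℂ) (φ.symm y), ?_⟩
    have h1 : evb μ φ (fun _ => (1 : ℂ)) (φ.symm y) = y := by
      rw [evb_rat μ φ (a := 1) (fun τ => (map_one τ).symm), h.one.2]
      exact φ.apply_symm_apply y
    exact h1

end GD
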