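import Pool.Agent.H51.GD.Typ
import Pool.Agent.H44.GD.LegD
import Pool.Agent.H5.GD.Bridge

/-!
# The constants of a flat isomorphism are gamma products
-/

noncomputable section

namespace GD

open Complex NumberField Module

private theorem gm_type {d : ℕ} [NeZero d] (ε : ZMod d → ℚ) (l : (ZMod d)ˣ) (p : ℚ) :
    (d : ℚ) * p = ∑ a ∈ Finset.univ.erase (0 : ZMod d), ε a * (((l : ZMod d) * a).val : ℚ) ↔
      tsum' d (fun x => x) ε l = p := by
  rw [sum_erase, ← tsum_id]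
  have h2 : (d : ℚ) ≠ 0 := by exact_mod_cast NeZero.ne d
  constructor
  · intro h
    exact (mul_left_cancel₀ h2 h).symm
  · intro h
    rw [h]

private theorem gm_smul {M : Type*} [AddCommGroup M] [Module ℚ M] {d : ℕ} [NeZero d] (ψ : ℚ → M)
    (q : ℚ) (ε : ZMod d → ℚ) (l : (ZMod d)ˣ) :
    tsum' d ψ (fun a => q * ε a) l = q • tsum' d ψ ε l := by
  unfold tsum'
  rw [Finset.smul_sum]
  exact Finset.sum_congr rfl fun b _ => mul_smul _ _ _

/-- The Hodge types of the determinants for conjugate embeddings. -/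
private theorem gm_sym {S : Str} (P : Pol S) {K : Type} [Field K] [NumberField K] (μ : Act K S)
    (hμ : ∀ a, IsHom S S (μ a)) (h1 : μ 1 = 1) (hS : Nontrivial S.W) (τ : K →+* ℂ) :
    factorType μ τ + factorType μ (ComplexEmbedding.conjugate τ) =
      finrank ℂ (eigenpart μ τ) * S.wt := by
  have h : μ 1 ≠ 0 := by
    intro h0
    obtain ⟨x, hx⟩ := exists_ne (0 : S.W)
    apply hx
    have h2 := LinearMap.congr_fun (h1.symm.trans h0) x
    exact h2
  obtain ⟨M, ι, hM, -, hι, heig, -⟩ := exists_sub μ hμ h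
  have h3 := leg_type ι P hM hι τ
  rw [← factorType_eq (fun τ => (heig τ).symm), ← factorType_eq (fun τ => (heig τ).symm),
    heig τ] at h3
  exact h3

variable {P Q : Str} {V : TwoFam P Q} {K : Type} [Field K] [NumberField K] {κ : Act K P}
  {μ : Act K Q} {φ : Q.W ≃ₗ[ℂ] P.W} {n : (K →+* ℂ) → ℕ}

/-- If the relation of Gross and Deligne holds for the determinants of both variations, the
constants are gamma products. -/
theorem TwoFam.Iso.exists_gamma (h : V.Iso κ μ φ n) (hQ : Nontrivial Q.W) (e : K →+* ℂ)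
    (he : ∃ d, LiesIn e d) (him : ∃ x, (e x).im ≠ 0) (hκ : FactorRelation κ e)
    (hμ : FactorRelation μ e) (c : (K →+* ℂ) → ℂ) (hc : ∀ τ, c τ ≠ 0)
    (hD : ∀ τ, ∀ w ∈ Q.D, w ∈ eigenpart μ τ → c τ • φ w ∈ P.D) :
    ∃ (d : ℕ) (_ : NeZero d) (ε : ZMod d → ℚ), (∀ x, e x ∈ cyc d) ∧
      ∀ (l : (ZMod d)ˣ) (τ : K →+* ℂ), IsPhi e d l τ →
        (d : ℚ) * n τ = ∑ a ∈ Finset.univ.erase (0 : ZMod d), ε a * (((l : ZMod d) * a).val : ℚ) ∧
          Sim (c τ) (gammaProd d ε l) := by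
  have hΓ := gammaSpec
  have hcond := liesIn_conductor he
  have hd0 : NeZero (conductor e) := ⟨hcond.1.ne'⟩
  obtain ⟨d, hd⟩ : ∃ d, d = conductor e := ⟨_, rfl⟩
  rw [← hd] at hcond hd0
  have hed : ∀ x, e x ∈ cyc d := hcond.2
  have hd3 : 3 ≤ d := three_le hed him
  have hκ' : ∀ a, IsHom P P (κ a) := fun a => (h.act a).1
  have hμ' : ∀ a, IsHom Q Q (μ a) := fun a => (h.act a).2
  obtain ⟨PQ, -⟩ := V.HQ.polarised
  -- the rank
  let m : ℕ := finrank ℂ (eigenpart μ e)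
  have hfr : ∀ τ, finrank ℂ (eigenpart μ τ) = m := by
    intro τ
    have h1 := finrank_eigenpart Q μ hμ' h.one.2 τ
    have h2 := finrank_eigenpart Q μ hμ' h.one.2 e
    have h3 : 0 < finrank ℚ K := finrank_pos
    exact Nat.eq_of_mul_eq_mul_right h3 (h1.trans h2.symm)
  have hm : m ≠ 0 := by
    intro h0
    have h2 := finrank_eigenpart Q μ hμ' h.one.2 e
    have h3 : 0 < finrank ℂ Q.W := finrank_pos
    change m * _ = _ at h2
    rw [h0, zero_mul] at h2
    omega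
  have hmQ : (m : ℚ) ≠ 0 := by exact_mod_cast hm
  -- the exponents for `μ`
  obtain ⟨ε₂, hε₂⟩ := ex' hΓ d hd3 (m * Q.wt : ℕ) (fun l => (factorType μ (phi e hed l) : ℚ))
    (fun l => by
      rw [← conj_phi, ← Nat.cast_add, gm_sym PQ μ hμ' h.one.2 hQ, hfr])
  -- the exponents for `n`
  obtain ⟨ε, hε⟩ := ex' hΓ d hd3 ((P.wt : ℚ) - Q.wt) (fun l => (n (phi e hed l) : ℚ))
    (fun l => by
      have h1 := h.n_add hQ (phi e hed l)
      rw [conj_phi] at h1
      rw [← h1]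
      push_cast
      ring)
  have hε₁ : ∀ l, tsum' d (fun x => x) (fun a => ε₂ a + m * ε a) l =
      factorType κ (phi e hed l) := by
    intro l
    rw [tsum_add, gm_smul, hε₂, hε, h.factorType_eq, hfr]
    push_cast
    rfl
  refine ⟨d, hd0, ε, hed, fun l τ hτ => ?_⟩
  have hτ' := (isPhi_iff e hed l τ).1 hτ
  subst hτ'
  refine ⟨(gm_type ε l _).2 (hε l), ?_⟩
  obtain ⟨z, hz⟩ := exists_factorPeriod μ hμ' (phi e hed l)
  have hy := h.period (hc _) (hD _) hz
  have hz0 : z ≠ 0 := by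
    obtain ⟨_, _, _, _, _, _, _, h0⟩ := hz
    exact h0
  rw [hfr] at hy
  have h1 := hκ d hd (fun a => ε₂ a + m * ε a) (fun l' τ' hτ' => by
    have h2 := (isPhi_iff e hed l' τ').1 hτ'
    subst h2
    exact (gm_type _ l' _).2 (hε₁ l')) l _ hτ _ hy
  have h2 := hμ d hd ε₂ (fun l' τ' hτ' => by
    have h2 := (isPhi_iff e hed l' τ').1 hτ'
    subst h2
    exact (gm_type _ l' _).2 (hε₂ l')) l _ hτ _ hz
  have h3 := cls_of_sim hΓ h1
  have h4 := cls_of_sim hΓ h2
  rw [cls_gammaProd hΓ] at h3 h4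
  rw [hΓ.mul _ _ (pow_ne_zero _ (hc _)) hz0, cls_pow hΓ _ (hc _), tsum_add, gm_smul, h4,
    add_comm] at h3
  have h5 := add_left_cancel h3
  refine sim_of_cls hΓ (hc _) (gammaProd_ne d ε l) ?_
  rw [cls_gammaProd hΓ]
  have h6 := congrArg (fun v => ((m : ℚ)⁻¹) • v) h5
  simp only [smul_smul, inv_mul_cancel₀ hmQ, one_smul] at h6
  exact h6

end GD
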