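import Pool.Agent.H51.GD.RkPol
import Pool.Agent.H44.FM.GammaDefs
import Pool.Agent.H5.GD.Bridge

/-!
# Structures of rank one whose periods are gamma products

PROOF of `gammaType_rk`: the unit vector `Pi.single τ₀ 1` is `∑ i, τ₀ (bad K i) • b i`, where
`b i = fun σ => σ (bas K i)` lies in `famB K` (`orth`), the coefficients lie in `cyc d` since
`τ₀ = φ(l₀)` (`exists_phi`). The conjugate for `s` with `s ζ = ζ ^ t` is `Pi.single (s ∘ τ₀) 1`, and
`s ∘ τ₀ = φ(t l₀)`. Take `ε' a = ε (a * l₀⁻¹)` (`tsum_shift`, `isPhi_iff`, `phi_apply`), so that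
`gammaProd d ε' t = gammaProd d ε (t l₀)`. The unit vectors span.
PROOF of `pol_rk`: `RkOne.exists_pol`, the automorphism `c` of `K` is complex conjugation
(`exists_G` for `l = -1`), `r.c τ * r.c (conj τ) ∼ gammaProd d ε l * gammaProd d ε (-l) ∼
(2 π i) ^ wt` (`gam_odd` or `cls_gammaProd`, `cls_two_pi_I`).
-/

set_option autoImplicit false

noncomputable section

namespace GD.DT

open Complex GD NumberField

variable {K : Type} [Field K] [NumberField K]

open scoped Classical in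
private theorem single_eq (τ : K →+* ℂ) :
    (Pi.single τ 1 : (K →+* ℂ) → ℂ) = ∑ i, τ (bad K i) • (fun σ : K →+* ℂ => σ (bas K i)) := by
  funext σ
  rw [Finset.sum_apply]
  simp only [Pi.smul_apply, smul_eq_mul]
  rw [orth K τ σ, Pi.single_apply]

private theorem gammaProd_shift {d : ℕ} [NeZero d] (ε : ZMod d → ℚ) (t l : (ZMod d)ˣ) :
    gammaProd d (fun a => ε (a * ((l⁻¹ : (ZMod d)ˣ) : ZMod d))) t = gammaProd d ε (t * l) := by
  unfold gammaProd
  refine Finset.prod_congr rfl fun a _ => ?_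
  rw [mul_inv, Units.val_mul, ← mul_assoc]

private theorem sum_shift {d : ℕ} [NeZero d] (ε : ZMod d → ℚ) (t l : (ZMod d)ˣ) :
    ∑ a ∈ Finset.univ.erase (0 : ZMod d),
        ε (a * ((l⁻¹ : (ZMod d)ˣ) : ZMod d)) * (((t : ZMod d) * a).val : ℚ) =
      ∑ a ∈ Finset.univ.erase (0 : ZMod d), ε a * ((((t * l : (ZMod d)ˣ) : ZMod d) * a).val : ℚ) := by
  rw [sum_erase d (fun a => ε (a * ((l⁻¹ : (ZMod d)ˣ) : ZMod d))), sum_erase,
    ← tsum_id d (fun a => ε (a * ((l⁻¹ : (ZMod d)ˣ) : ZMod d))), ← tsum_id, tsum_shift]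

/-- A structure of rank one whose periods are gamma products is of gamma type. -/
theorem gammaType_rk (r : RkOne K) (e : K →+* ℂ) {d : ℕ} [NeZero d] (he : ∀ x, e x ∈ cyc d)
    (ε : ZMod d → ℚ) (h : ∀ (l : (ZMod d)ˣ) (τ : K →+* ℂ), IsPhi e d l τ →
      (d : ℚ) * r.p τ = ∑ a ∈ Finset.univ.erase (0 : ZMod d), ε a * (((l : ZMod d) * a).val : ℚ) ∧
        Sim (r.c τ) (gammaProd d ε l)) :
    GammaType r.str := by
  classical
  unfold GammaType
  rw [eq_top_iff]
  intro (w : (K →+* ℂ) → ℂ) _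
  have hw : w = ∑ τ, w τ • (Pi.single τ 1 : (K →+* ℂ) → ℂ) := by
    funext σ
    rw [Finset.sum_apply, Finset.sum_eq_single σ]
    · rw [Pi.smul_apply, Pi.single_eq_same, smul_eq_mul, mul_one]
    · intro τ _ hτ
      rw [Pi.smul_apply, Pi.single_eq_of_ne (Ne.symm hτ), smul_zero]
    · intro h
      exact absurd (Finset.mem_univ σ) h
  rw [hw]
  refine Submodule.sum_mem _ fun τ₀ _ => Submodule.smul_mem _ _ (Submodule.subset_span ?_)
  obtain ⟨l₀, rfl⟩ := exists_phi e he τ₀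
  refine ⟨d, inferInstance, fun a => ε (a * ((l₀⁻¹ : (ZMod d)ˣ) : ZMod d)),
    Module.finrank ℚ K, fun k => sAut d l₀ (eRes e he (bad K k)),
    fun k => (fun σ : K →+* ℂ => σ (bas K k)), fun k => ⟨bas K k, fun σ => rfl⟩, ?_, ?_⟩
  · exact single_eq (phi e he l₀)
  · intro t s hs
    have hs' : s = (algebraMap (cyc d) ℂ).comp (sAut d t).toRingEquiv.toRingHom := by
      apply cyc_ext
      rw [hs ⟨zeta d, zeta_mem d⟩ rfl]
      change _ = ((sAut d t ⟨zeta d, zeta_mem d⟩ : cyc d) : ℂ)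
      rw [sAut_zeta d t ⟨zeta d, zeta_mem d⟩ (zeta_prim d).pow_eq_one]
      rfl
    have hsum : (∑ k, s (sAut d l₀ (eRes e he (bad K k))) •
        (fun σ : K →+* ℂ => σ (bas K k)) : (K →+* ℂ) → ℂ) =
        Pi.single (phi e he (t * l₀)) 1 := by
      rw [single_eq]
      refine Finset.sum_congr rfl fun k _ => ?_
      congr 1
      rw [hs', phi_apply, sAut_mul]
      rfl
    obtain ⟨h1, h2⟩ := h (t * l₀) (phi e he (t * l₀)) ((isPhi_iff e he _ _).2 rfl)
    refine ⟨r.p (phi e he (t * l₀)), ?_, ?_, ?_⟩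
    · rw [h1, sum_shift]
    · refine (?_ : (∑ k, s (sAut d l₀ (eRes e he (bad K k))) •
        (fun σ : K →+* ℂ => σ (bas K k)) : (K →+* ℂ) → ℂ) ∈ r.strH (r.p (phi e he (t * l₀))))
      rw [hsum]
      intro σ hσ
      rw [Pi.single_eq_of_ne]
      rintro rfl
      exact hσ rfl
    · refine (?_ : ((gammaProd d (fun a => ε (a * ((l₀⁻¹ : (ZMod d)ˣ) : ZMod d))) t : ℝ) : ℂ) •
        (∑ k, s (sAut d l₀ (eRes e he (bad K k))) •
        (fun σ : K →+* ℂ => σ (bas K k)) : (K →+* ℂ) → ℂ) ∈ r.strD)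
      rw [hsum, gammaProd_shift]
      intro σ
      by_cases hσ : σ = phi e he (t * l₀)
      · subst hσ
        have halg : IsAlgebraic ℚ (((gammaProd d ε (t * l₀) : ℝ) : ℂ) /
            r.c (phi e he (t * l₀))) := by
          have := h2.2.2.inv
          rwa [inv_div] at this
        refine ⟨⟨_, (mem_algebraicClosure_iff).2 halg⟩, ?_⟩
        rw [Pi.smul_apply, Pi.single_eq_same, smul_eq_mul, mul_one]
        change _ = ((gammaProd d ε (t * l₀) : ℝ) : ℂ) / r.c (phi e he (t * l₀)) *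
          r.c (phi e he (t * l₀))
        rw [div_mul_cancel₀ _ (r.c_ne _)]
      · refine ⟨0, ?_⟩
        rw [Pi.smul_apply, Pi.single_eq_of_ne hσ, smul_zero]
        simp

/-- A structure of rank one whose periods are gamma products is polarised. -/
theorem pol_rk (r : RkOne K) (e : K →+* ℂ) {d : ℕ} [NeZero d] (he : ∀ x, e x ∈ cyc d)
    (ε : ZMod d → ℚ) (h : ∀ (l : (ZMod d)ˣ) (τ : K →+* ℂ), IsPhi e d l τ →
      (d : ℚ) * r.p τ = ∑ a ∈ Finset.univ.erase (0 : ZMod d), ε a * (((l : ZMod d) * a).val : ℚ) ∧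
        Sim (r.c τ) (gammaProd d ε l)) :
    Nonempty (Pol r.str) := by
  obtain ⟨G, -, hG⟩ := exists_G e he
  have hphi : ∀ (σ : K →+* ℂ) x, σ (G (-1) x) = (starRingEnd ℂ) (σ x) := by
    intro σ x
    obtain ⟨l, rfl⟩ := exists_phi e he σ
    have h1 : ComplexEmbedding.conjugate (phi e he l) x = phi e he (-l) x := by rw [conj_phi]
    have h2 : (starRingEnd ℂ) (phi e he l x) = phi e he (-l) x := h1
    rw [h2, phi_apply, hG, ← sAut_mul, mul_neg_one, phi_apply]
  refine r.exists_pol (G (-1)).toRingEquiv hphi ?_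
  intro σ
  obtain ⟨l, rfl⟩ := exists_phi e he σ
  obtain ⟨h1, h2⟩ := h l (phi e he l) ((isPhi_iff e he _ _).2 rfl)
  obtain ⟨h3, h4⟩ := h (-l) (phi e he (-l)) ((isPhi_iff e he _ _).2 rfl)
  rw [conj_phi]
  have hd : (d : ℚ) ≠ 0 := by exact_mod_cast NeZero.ne d
  have hp := r.p_add (phi e he l)
  rw [conj_phi] at hp
  have h5 : tsum' d (fun x => x) ε l = r.p (phi e he l) := by
    rw [sum_erase, ← tsum_id] at h1
    exact (mul_left_cancel₀ hd h1).symm
  have h6 : tsum' d (fun x => x) ε (-l) = r.p (phi e he (-l)) := by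
    rw [sum_erase, ← tsum_id] at h3
    exact (mul_left_cancel₀ hd h3).symm
  have h7 := gam_odd gammaSpec d (r.wt : ℚ) ε l (by
    rw [h5, h6, ← hp]
    push_cast
    rfl)
  have hne : r.c (phi e he l) * r.c (phi e he (-l)) ≠ 0 := mul_ne_zero (r.c_ne _) (r.c_ne _)
  have hsim : Sim (r.c (phi e he l) * r.c (phi e he (-l))) ((2 * Real.pi * I) ^ r.wt) := by
    refine sim_of_cls gammaSpec hne (two_pi_I_ne _) ?_
    rw [gammaSpec.mul _ _ (r.c_ne _) (r.c_ne _), cls_of_sim gammaSpec h2,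
      cls_of_sim gammaSpec h4, cls_gammaProd gammaSpec, cls_gammaProd gammaSpec, h7,
      cls_two_pi_I gammaSpec]
  refine ⟨_, hsim.2.2, ?_⟩
  rw [mul_div_cancel₀ _ hsim.2.1]

end GD.DT
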