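import Pool.Agent.H51.GD.Part
import Pool.Agent.H44.TR.Lin

/-!
# The constants of a flat isomorphism
-/

noncomputable section

namespace GD

open Complex NumberField Module

section part

private theorem cn_coord {S : Str} {n : ℕ} (b : Basis (Fin n) ℂ S.W)
    (hD : S.D = Submodule.span Qbar (Set.range b)) {w : S.W} (hw : w ∈ S.D) (k : Fin n) :
    b.coord k w ∈ Qbar := by
  rw [hD] at hw
  induction hw using Submodule.span_induction with
  | mem x hx =>
    obtain ⟨i, rfl⟩ := hx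
    rw [Basis.coord_apply, Basis.repr_self, Finsupp.single_apply]
    split_ifs
    · exact one_mem Qbar
    · exact zero_mem Qbar
  | zero =>
    rw [map_zero]
    exact zero_mem Qbar
  | add x y _ _ hx hy =>
    rw [map_add]
    exact add_mem hx hy
  | smul q x _ hx =>
    have h1 : q • x = (q : ℂ) • x := rfl
    rw [h1, map_smul, smul_eq_mul]
    exact mul_mem q.2 hx

private theorem cn_mem {S : Str} {n : ℕ} (b : Basis (Fin n) ℂ S.W)
    (hD : S.D = Submodule.span Qbar (Set.range b)) {w : S.W} (hw : ∀ k, b.coord k w ∈ Qbar) :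
    w ∈ S.D := by
  rw [hD, ← b.sum_repr w]
  refine Submodule.sum_mem _ fun k _ => ?_
  exact Submodule.smul_mem _ (⟨b.coord k w, hw k⟩ : Qbar) (Submodule.subset_span ⟨k, rfl⟩)

variable {P Q : Str} {m n : ℕ} (b : Basis (Fin n) ℂ P.W)
  (hD : P.D = Submodule.span Qbar (Set.range b)) (b' : Basis (Fin m) ℂ Q.W)
  (hD' : Q.D = Submodule.span Qbar (Set.range b'))

include hD hD'

/-- The part of a homomorphism with respect to a linear functional satisfies the same linear
relations with operators which preserve the de Rham forms. -/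
private theorem cn_comm (l : ℂ →ₗ[Qbar] Qbar) {f f' : Q.W →ₗ[ℂ] P.W}
    (hf : ∀ w ∈ Q.D, ∀ k, b.coord k (f' w) = l (b.coord k (f w))) {α : Module.End ℂ Q.W}
    {β : Module.End ℂ P.W} (hα : ∀ w ∈ Q.D, α w ∈ Q.D) (hβ : ∀ w ∈ P.D, β w ∈ P.D)
    (h : ∀ w, f (α w) = β (f w)) (w : Q.W) : f' (α w) = β (f' w) := by
  have hbD' : ∀ j, b' j ∈ Q.D := fun j => by
    rw [hD']
    exact Submodule.subset_span ⟨j, rfl⟩
  have hbD : ∀ j, b j ∈ P.D := fun j => by
    rw [hD]
    exact Submodule.subset_span ⟨j, rfl⟩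
  have hexp : ∀ (v : P.W) k, b.coord k (β v) = ∑ m, b.coord k (β (b m)) * b.coord m v := by
    intro v k
    conv_lhs => rw [← b.sum_repr v]
    rw [map_sum, map_sum]
    refine Finset.sum_congr rfl fun m _ => ?_
    rw [map_smul, map_smul, smul_eq_mul, mul_comm]
    rfl
  have h2 : f' ∘ₗ α = β ∘ₗ f' := by
    refine b'.ext fun j => b.ext_elem fun k => ?_
    change b.coord k (f' (α (b' j))) = b.coord k (β (f' (b' j)))
    rw [hf _ (hα _ (hbD' j)), h, hexp, hexp, map_sum]
    push_cast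
    refine Finset.sum_congr rfl fun m _ => ?_
    rw [ellQ_mul l (cn_coord b hD (hβ _ (hbD m)) k), hf _ (hbD' j)]
  exact LinearMap.congr_fun h2 w

end part

variable {P Q : Str} {V : TwoFam P Q} {K : Type} [Field K] [NumberField K] {κ : Act K P}
  {μ : Act K Q} {φ : Q.W ≃ₗ[ℂ] P.W} {n : (K →+* ℂ) → ℕ}

/-- On the part on which `K` acts through one embedding, a flat isomorphism becomes compatible with
the de Rham forms after multiplication with a constant. -/
theorem TwoFam.Iso.exists_const (h : V.Iso κ μ φ n) (τ : K →+* ℂ) :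
    ∃ c : ℂ, c ≠ 0 ∧ ∀ w ∈ Q.D, w ∈ eigenpart μ τ → c • φ w ∈ P.D := by
  classical
  by_cases hbot : eigenpart μ τ = ⊥
  · refine ⟨1, one_ne_zero, fun w _ hw => ?_⟩
    rw [hbot, Submodule.mem_bot] at hw
    rw [hw, map_zero, smul_zero]
    exact zero_mem _
  let b : Basis (Fin V.HP.n) ℂ P.W := Basis.mk (V.HP.indep V.s V.hs.1) (V.HP.span V.s V.hs.1).ge
  have hb : ∀ i, b i = V.HP.ω i V.s := fun i => Basis.mk_apply _ _ i
  have hD : P.D = Submodule.span Qbar (Set.range b) := by
    rw [V.dR_P]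
    congr 2
    exact funext fun i => (hb i).symm
  let b' : Basis (Fin V.HQ.n) ℂ Q.W := Basis.mk (V.HQ.indep V.s V.hs.1) (V.HQ.span V.s V.hs.1).ge
  have hb' : ∀ i, b' i = V.HQ.ω i V.s := fun i => Basis.mk_apply _ _ i
  have hD' : Q.D = Submodule.span Qbar (Set.range b') := by
    rw [V.dR_Q]
    congr 2
    exact funext fun i => (hb' i).symm
  have hbD : ∀ j, b' j ∈ Q.D := fun j => by
    rw [hD']
    exact Submodule.subset_span ⟨j, rfl⟩
  -- a de Rham vector in the eigenpart
  obtain ⟨π, hπ, hπD, -⟩ := exists_eigProj μ (fun a => (h.act a).2) τ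
  have hex : ∃ j, π (b' j) ≠ 0 := by
    by_contra hcon
    push Not at hcon
    apply hbot
    have h1 : π = 0 := b'.ext hcon
    rw [← hπ, h1, LinearMap.range_zero]
  obtain ⟨j, hj⟩ := hex
  have hw0 : π (b' j) ∈ eigenpart μ τ := by
    rw [← hπ]
    exact ⟨_, rfl⟩
  have hφ0 : φ (π (b' j)) ≠ 0 := by
    intro h0
    apply hj
    exact φ.injective (h0.trans (map_zero φ).symm)
  have hexk : ∃ k, b.coord k (φ (π (b' j))) ≠ 0 := by
    by_contra hcon
    push Not at hcon
    exact hφ0 (b.ext_elem fun k => by rw [map_zero]; exact hcon k)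
  obtain ⟨k, hk⟩ := hexk
  -- the functional
  obtain ⟨l₀, hl₀⟩ := exists_ellQ
  let l : ℂ →ₗ[Qbar] Qbar := l₀ ∘ₗ LinearMap.mulLeft Qbar (b.coord k (φ (π (b' j))))⁻¹
  have hl : l (b.coord k (φ (π (b' j)))) = 1 := by
    change l₀ ((b.coord k (φ (π (b' j))))⁻¹ * b.coord k (φ (π (b' j)))) = 1
    rw [inv_mul_cancel₀ hk]
    exact hl₀ 1
  obtain ⟨f', hf'c, hf'⟩ := V.exists_part b φ hb b' hb' l h.flat
  rw [← hD'] at hf'
  obtain ⟨c, hc⟩ := h.unique f' hf'c (fun a w => cn_comm b hD b' hD' l hf'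
    (fun w hw => (h.act a).2.deRham w hw) (fun w hw => (h.act a).1.deRham w hw)
    (fun w => h.lin a w) w) τ
  refine ⟨c, ?_, fun w hw hwτ => ?_⟩
  · rintro rfl
    have h1 := hc _ hw0
    rw [zero_smul] at h1
    have h2 := hf' _ (hπD _ (hbD j)) k
    rw [h1, map_zero] at h2
    have h3 : ((l (b.coord k (φ (π (b' j)))) : Qbar) : ℂ) = 1 := by
      rw [hl]
      push_cast
      rfl
    exact zero_ne_one (α := ℂ) (h2.trans h3)
  · rw [← hc w hwτ]
    refine cn_mem b hD fun k => ?_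
    rw [hf' w hw]
    exact SetLike.coe_mem _

end GD
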