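import Pool.Agent.H51.GD.Defs
import Pool.Agent.H44.TR.Part
import Pool.Agent.H26.LM.Fix

/-!
# The flat homomorphisms between two variations are defined over the algebraic numbers
-/

noncomputable section

namespace GD

open Complex Filter Topology Module

private theorem vcm_lin {B : Curve} {S : Str} (H : Variation B S) (b : Basis (Fin H.n) ℂ S.W)
    (w : S.W) (k : Fin H.n) (z : ℂ) :
    H.vcm b w k z = ∑ l, b.coord l w * H.vcm b (b l) k z := by
  have h0 : ∀ v : Fin H.n → ℂ, ((H.mat b z).updateRow k v).det =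
      (Matrix.detRowAlternating (n := Fin H.n) (R := ℂ)).toMultilinearMap.toLinearMap
        (H.mat b z) k v := fun v => rfl
  have h1 : (fun l => b.coord l w) = ∑ m, b.coord m w • fun l => b.coord l (b m) := by
    funext l
    rw [Finset.sum_apply]
    conv_lhs => rw [← b.sum_repr w, map_sum]
    exact Finset.sum_congr rfl fun m _ => by rw [map_smul]; rfl
  rw [Variation.vcm, h1, h0, map_sum, Finset.mul_sum]
  refine Finset.sum_congr rfl fun l _ => ?_
  rw [Variation.vcm, map_smul, ← h0, smul_eq_mul]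
  ring

variable {P Q : Str} (V : TwoFam P Q)

/-- The matrix of a homomorphism in the two frames, multiplied by the square of the determinant. -/
def TwoFam.pm (b : Basis (Fin V.HP.n) ℂ P.W) (f : Q.W →ₗ[ℂ] P.W) (jk : Fin V.HQ.n × Fin V.HP.n)
    (z : ℂ) : ℂ :=
  V.HP.vcm b (f (V.HQ.ω jk.1 z)) jk.2 z

variable (b : Basis (Fin V.HP.n) ℂ P.W) (f : Q.W →ₗ[ℂ] P.W)

private theorem pm_eq_sum (jk : Fin V.HQ.n × Fin V.HP.n) :
    V.pm b f jk = ∑ l, (fun z => b.coord l (f (V.HQ.ω jk.1 z))) * V.HP.vcm b (b l) jk.2 := by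
  funext z
  rw [TwoFam.pm, vcm_lin, Finset.sum_apply]
  rfl

private theorem pm_mem (jk : Fin V.HQ.n × Fin V.HP.n) :
    V.pm b f jk ∈ V.B.periodRing V.HP.ω ⊔ V.B.periodRing V.HQ.ω := by
  rw [pm_eq_sum]
  refine Subalgebra.sum_mem _ fun l _ => mul_mem ?_ ?_
  · exact (le_sup_right : V.B.periodRing V.HQ.ω ≤ _) (V.HQ.coord_mem (b.coord l ∘ₗ f) jk.1)
  · exact (le_sup_left : V.B.periodRing V.HP.ω ≤ _) (V.HP.vcm_mem b (b l) jk.2)

private theorem pm_deck (hf : V.FlatHom f) {g : Deck P × Deck Q} (hg : g ∈ V.deck) {z : ℂ}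
    (hz : z ∈ V.B.U) (jk : Fin V.HQ.n × Fin V.HP.n) :
    V.pm b f jk (g.1.move z) = V.pm b f jk z := by
  obtain ⟨hg1, hg2, hm⟩ := V.deck_mem g hg
  obtain ⟨h, hh⟩ := V.HP.exists_coeff hz (f (V.HQ.ω jk.1 z))
  have h1 : f (V.HQ.ω jk.1 (g.1.move z)) = ∑ k, h k • V.HP.ω k (g.1.move z) := by
    rw [hm, V.HQ.monodromy g.2 hg2 z hz, hf g hg, hh, map_sum]
    refine Finset.sum_congr rfl fun k _ => ?_
    rw [map_smul, ← hm, V.HP.monodromy g.1 hg1 z hz]
  rw [TwoFam.pm, TwoFam.pm, V.HP.vcm_eq b _ hh, V.HP.vcm_eq b _ h1, V.HP.wr_deck b hg1 hz]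

/-- The system for the matrices of homomorphisms. -/
private theorem pm_system : ∃ M : Fin V.HQ.n × Fin V.HP.n → Fin V.HQ.n × Fin V.HP.n → ℂ → ℂ,
    (∀ jk lm, M jk lm ∈ V.B.A) ∧
    ∀ (b : Basis (Fin V.HP.n) ℂ P.W) (f : Q.W →ₗ[ℂ] P.W) (jk : Fin V.HQ.n × Fin V.HP.n),
      ∀ z ∈ V.B.U, HasDerivAt (V.pm b f jk)
        (deriv V.B.x z * ∑ lm, M jk lm z * V.pm b f lm z) z := by
  classical
  obtain ⟨PP, hPA, hP⟩ := V.HP.exists_conn
  obtain ⟨PQ, hQA, hQ⟩ := V.HQ.exists_conn
  let tr : ℂ → ℂ := (2 : ℕ) • ∑ i, PP i i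
  have htr : tr ∈ V.B.A := nsmul_mem (Subalgebra.sum_mem _ fun i _ => hPA i i) 2
  have htrz : ∀ z, tr z = 2 * ∑ i, PP i i z := by
    intro z
    change ((2 : ℕ) • ∑ i, PP i i) z = _
    rw [Pi.smul_apply, Finset.sum_apply, nsmul_eq_mul]
    norm_num
  refine ⟨fun jk lm => (if lm.1 = jk.1 ∧ lm.2 = jk.2 then tr else 0) +
      (if lm.2 = jk.2 then PQ jk.1 lm.1 else 0) - (if lm.1 = jk.1 then PP lm.2 jk.2 else 0),
    fun jk lm => ?_, fun b f jk z hz => ?_⟩
  · refine sub_mem (add_mem ?_ ?_) ?_ <;> split_ifs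
    · exact htr
    · exact zero_mem _
    · exact hQA _ _
    · exact zero_mem _
    · exact hPA _ _
    · exact zero_mem _
  · obtain ⟨j, k⟩ := jk
    have hd : HasDerivAt (V.pm b f (j, k))
        (∑ l, ((deriv V.B.x z * ∑ i, PQ j i z * b.coord l (f (V.HQ.ω i z))) *
            V.HP.vcm b (b l) k z + b.coord l (f (V.HQ.ω j z)) *
            (deriv V.B.x z * (2 * (∑ i, PP i i z) * V.HP.vcm b (b l) k z -
              ∑ m, PP m k z * V.HP.vcm b (b l) m z)))) z := by
      have h1 := HasDerivAt.fun_sum (u := Finset.univ)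
        (A := fun l z => b.coord l (f (V.HQ.ω j z)) * V.HP.vcm b (b l) k z)
        fun l _ => (hQ j (b.coord l ∘ₗ f) z hz).fun_mul (V.HP.vcm_deriv b (b l) hP hz k)
      have h2 : V.pm b f (j, k) = fun z => ∑ l, b.coord l (f (V.HQ.ω j z)) *
          V.HP.vcm b (b l) k z := by
        funext z
        exact vcm_lin _ _ _ _ _
      rw [h2]
      exact h1
    refine hd.congr_deriv ?_
    have e0 : ∀ j k, V.pm b f (j, k) z = ∑ l, b.coord l (f (V.HQ.ω j z)) *
        V.HP.vcm b (b l) k z := fun j k => vcm_lin _ _ _ _ _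
    have e1 : ∑ lm : Fin V.HQ.n × Fin V.HP.n, (if lm.1 = j ∧ lm.2 = k then tr else 0) z *
        V.pm b f lm z = 2 * (∑ i, PP i i z) * V.pm b f (j, k) z := by
      rw [Finset.sum_eq_single (j, k)]
      · rw [if_pos ⟨rfl, rfl⟩, htrz]
      · rintro ⟨l, m⟩ - hlm
        rw [if_neg (fun h => hlm (Prod.ext h.1 h.2))]
        simp
      · simp
    have e2 : ∑ lm : Fin V.HQ.n × Fin V.HP.n, (if lm.2 = k then PQ j lm.1 else 0) z *
        V.pm b f lm z = ∑ l, PQ j l z * V.pm b f (l, k) z := by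
      rw [Fintype.sum_prod_type]
      refine Finset.sum_congr rfl fun l _ => ?_
      rw [Finset.sum_eq_single k]
      · rw [if_pos rfl]
      · intro m _ hm
        rw [if_neg hm]
        simp
      · simp
    have e3 : ∑ lm : Fin V.HQ.n × Fin V.HP.n, (if lm.1 = j then PP lm.2 k else 0) z *
        V.pm b f lm z = ∑ l, PP l k z * V.pm b f (j, l) z := by
      rw [Fintype.sum_prod_type, Finset.sum_eq_single j]
      · exact Finset.sum_congr rfl fun m _ => by rw [if_pos rfl]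
      · intro l _ hl
        refine Finset.sum_eq_zero fun m _ => ?_
        rw [if_neg hl]
        simp
      · simp
    simp only [Pi.sub_apply, Pi.add_apply, sub_mul, add_mul, Finset.sum_sub_distrib,
      Finset.sum_add_distrib]
    rw [e1, e2, e3]
    simp only [e0]
    have e4 : ∑ l, (deriv V.B.x z * ∑ i, PQ j i z * b.coord l (f (V.HQ.ω i z))) *
        V.HP.vcm b (b l) k z =
        deriv V.B.x z * ∑ i, PQ j i z * ∑ l, b.coord l (f (V.HQ.ω i z)) *
          V.HP.vcm b (b l) k z := by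
      simp only [Finset.mul_sum, Finset.sum_mul]
      rw [Finset.sum_comm]
      exact Finset.sum_congr rfl fun i _ => Finset.sum_congr rfl fun l _ => by ring
    have e5 : ∑ l, b.coord l (f (V.HQ.ω j z)) *
            (deriv V.B.x z * (2 * (∑ i, PP i i z) * V.HP.vcm b (b l) k z -
              ∑ m, PP m k z * V.HP.vcm b (b l) m z)) =
        deriv V.B.x z * (2 * (∑ i, PP i i z) * ∑ l, b.coord l (f (V.HQ.ω j z)) *
          V.HP.vcm b (b l) k z) - deriv V.B.x z * ∑ m, PP m k z *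
            ∑ l, b.coord l (f (V.HQ.ω j z)) * V.HP.vcm b (b l) m z := by
      have h1 : ∑ m, PP m k z * ∑ l, b.coord l (f (V.HQ.ω j z)) * V.HP.vcm b (b l) m z =
          ∑ l, b.coord l (f (V.HQ.ω j z)) * ∑ m, PP m k z * V.HP.vcm b (b l) m z := by
        simp only [Finset.mul_sum]
        rw [Finset.sum_comm]
        exact Finset.sum_congr rfl fun i _ => Finset.sum_congr rfl fun l _ => by ring
      rw [h1]
      generalize 2 * (∑ i, PP i i z) = t
      rw [← mul_sub, Finset.mul_sum, ← Finset.sum_sub_distrib, Finset.mul_sum]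
      exact Finset.sum_congr rfl fun l _ => by ring
    rw [e4, e5]
    ring

/-- The solutions of a linear system which agree at one point agree. -/
private theorem pm_unique {B : Curve} {ι : Type} [Fintype ι] {s : ℂ} (hs : s ∈ B.U)
    {M : ι → ι → ℂ → ℂ} (hM : ∀ i j, M i j ∈ B.A) {y y' : ι → ℂ → ℂ}
    (hy : ∀ i, ∀ z ∈ B.U, HasDerivAt (y i) (deriv B.x z * ∑ j, M i j z * y j z) z)
    (hy' : ∀ i, ∀ z ∈ B.U, HasDerivAt (y' i) (deriv B.x z * ∑ j, M i j z * y' j z) z)
    (h : ∀ i, y i s = y' i s) : ∀ i, ∀ z ∈ B.U, y i z = y' i z := by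
  intro i z hz
  have h1 := ode_zero B.isOpen B.conn hs (u := fun i z => y i z - y' i z)
    (K := fun i j z => deriv B.x z * M i j z) (fun i j => ?_) (fun i z hz => ?_) (fun i => ?_) i z hz
  · exact sub_eq_zero.1 h1
  · exact ((B.hol _ B.x_mem).deriv B.isOpen).continuousOn.mul (B.hol _ (hM i j)).continuousOn
  · refine ((hy i z hz).fun_sub (hy' i z hz)).congr_deriv ?_
    rw [← mul_sub, ← Finset.sum_sub_distrib, Finset.mul_sum]
    exact Finset.sum_congr rfl fun j _ => by ring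
  · rw [h, sub_self]

/-- The part of a homomorphism of local systems with respect to a linear functional over the
algebraic numbers, in the de Rham forms of the fibres at `s`, is a homomorphism of local systems. -/
theorem TwoFam.exists_part (hb : ∀ i, b i = V.HP.ω i V.s) (b' : Basis (Fin V.HQ.n) ℂ Q.W)
    (hb' : ∀ i, b' i = V.HQ.ω i V.s) (l : ℂ →ₗ[Qbar] Qbar) (hf : V.FlatHom f) :
    ∃ f' : Q.W →ₗ[ℂ] P.W, V.FlatHom f' ∧
      ∀ w ∈ Submodule.span Qbar (Set.range b'), ∀ k, b.coord k (f' w) = l (b.coord k (f w)) := by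
  classical
  obtain ⟨hs, hxs⟩ := V.hs
  have hwr : V.HP.wr b V.s = 1 := by
    have h1 : (fun i => V.HP.ω i V.s) = b := funext fun i => (hb i).symm
    rw [Variation.wr, h1, Basis.det_self]
  obtain ⟨M, hM, hMd⟩ := pm_system V
  have hreg : ∀ jk : Fin V.HQ.n × Fin V.HP.n, V.B.RegC (V.pm b f jk) := fun jk =>
    V.regular _ (pm_mem V b f jk) fun g hg z hz => pm_deck V b f hf hg hz jk
  obtain ⟨N, hNA, hNd, hNs⟩ := V.B.descent_part hs hxs l hreg hM (hMd b f)
  have hop : ∀ (π : Q.W →ₗ[ℂ] P.W) j k, V.pm b π (j, k) V.s = b.coord k (π (b' j)) := by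
    intro π j k
    have h1 : π (V.HQ.ω j V.s) = ∑ k, b.coord k (π (b' j)) • V.HP.ω k V.s := by
      rw [← hb' j]
      conv_lhs => rw [← b.sum_repr (π (b' j))]
      exact Finset.sum_congr rfl fun k _ => by rw [← hb k]; rfl
    rw [TwoFam.pm, V.HP.vcm_eq b _ h1, hwr, one_pow, one_mul]
  let f' : Q.W →ₗ[ℂ] P.W := b'.constr ℂ fun j => ∑ k, N (j, k) V.s • b k
  have hf' : ∀ j, f' (b' j) = ∑ k, N (j, k) V.s • b k := fun j => b'.constr_basis ℂ _ j
  have hfk : ∀ j k, b.coord k (f' (b' j)) = N (j, k) V.s := by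
    intro j k
    rw [hf', map_sum, Finset.sum_eq_single k]
    · rw [map_smul, Basis.coord_apply, Basis.repr_self, Finsupp.single_eq_same, smul_eq_mul,
        mul_one]
    · intro m _ hm
      rw [map_smul, Basis.coord_apply, Basis.repr_self, Finsupp.single_eq_of_ne (Ne.symm hm),
        smul_zero]
    · simp
  have heq : ∀ jk : Fin V.HQ.n × Fin V.HP.n, ∀ z ∈ V.B.U, V.pm b f' jk z = N jk z := by
    refine pm_unique hs hM (hMd b f') hNd fun jk => ?_
    rw [hop, hfk]
  refine ⟨f', fun g hg w => ?_, fun w hw k => ?_⟩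
  · -- the monodromy
    obtain ⟨hg1, hg2, hm⟩ := V.deck_mem g hg
    have hgs := V.HP.deck_U g.1 hg1 V.s hs
    have hwr' : V.HP.wr b (g.1.move V.s) ^ 2 = 1 := by rw [V.HP.wr_deck b hg1 hs, hwr, one_pow]
    have hbas : ∀ j, f' (g.2.act (b' j)) = g.1.act (f' (b' j)) := by
      intro j
      have h1 := V.HP.vcm_sum b (f' (V.HQ.ω j (g.1.move V.s))) hgs.1
      rw [hwr', one_smul] at h1
      have h2 : V.HQ.ω j (g.1.move V.s) = g.2.act (b' j) := by
        rw [hm, V.HQ.monodromy g.2 hg2 V.s hs, ← hb' j]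
      have h3 : ∀ k, V.HP.vcm b (f' (V.HQ.ω j (g.1.move V.s))) k (g.1.move V.s) =
          N (j, k) V.s := by
        intro k
        have h4 := heq (j, k) _ hgs.1
        rw [hgs.2 _ (hNA (j, k))] at h4
        exact h4
      rw [← h2, h1, hf', map_sum]
      refine Finset.sum_congr rfl fun k _ => ?_
      rw [map_smul, h3, V.HP.monodromy g.1 hg1 V.s hs, hb k]
    have h2 : f' ∘ₗ g.2.act = g.1.act ∘ₗ f' := b'.ext hbas
    exact LinearMap.congr_fun h2 w
  · induction hw using Submodule.span_induction with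
    | mem x hx =>
      obtain ⟨j, rfl⟩ := hx
      rw [hfk, hNs, hop]
    | zero => simp
    | add x y _ _ hx hy =>
      rw [map_add, map_add, map_add, map_add, map_add, hx, hy]
      push_cast
      rfl
    | smul q x _ hx =>
      have h1 : q • x = (q : ℂ) • x := rfl
      rw [h1, map_smul, map_smul, map_smul, map_smul, smul_eq_mul, smul_eq_mul, hx,
        ellQ_mul l q.2]

end GD
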