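import Pool.Agent.H51.GD.Defs
import Pool.Agent.H44.TR.Per

/-!
# The determinants of periods of two variations which are related by a flat isomorphism

PROOF of `period`: as in `FlatIso.period` (H44/TR/Per.lean): the image under `φ` of the basis `v` of
`eigenpart μ τ` is a basis of `eigenpart κ τ`, take the matrix `c • P`. Only `h.lin`, `h.betti`,
`h.one` and the bijectivity of `φ` are used.
-/

noncomputable section

namespace GD

open Complex NumberField Module

variable {P Q : Str} {V : TwoFam P Q} {K : Type} [Field K] [NumberField K] {κ : Act K P}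
  {μ : Act K Q} {φ : Q.W ≃ₗ[ℂ] P.W} {n : (K →+* ℂ) → ℕ}

/-- `φ` maps the eigenparts to the eigenparts. -/
theorem TwoFam.Iso.map_eigenpart (h : V.Iso κ μ φ n) (τ : K →+* ℂ) :
    (eigenpart μ τ).map (φ : Q.W →ₗ[ℂ] P.W) = eigenpart κ τ := by
  apply le_antisymm
  · rintro _ ⟨w, hw, rfl⟩
    rw [mem_eigenpart]
    intro a
    rw [LinearEquiv.coe_coe, ← h.lin, (mem_eigenpart μ τ w).1 hw a, map_smul]
  · intro w hw
    refine ⟨φ.symm w, ?_, φ.apply_symm_apply w⟩
    rw [SetLike.mem_coe, mem_eigenpart]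
    intro a
    apply φ.injective
    rw [h.lin, φ.apply_symm_apply, map_smul, φ.apply_symm_apply]
    exact (mem_eigenpart κ τ w).1 hw a

/-- The determinants of periods. -/
theorem TwoFam.Iso.period (h : V.Iso κ μ φ n) {τ : K →+* ℂ} {c : ℂ} (hc : c ≠ 0)
    (hD : ∀ w ∈ Q.D, w ∈ eigenpart μ τ → c • φ w ∈ P.D) {z : ℂ} (hz : IsFactorPeriod μ τ z) :
    IsFactorPeriod κ τ (c ^ finrank ℂ (eigenpart μ τ) * z) := by
  obtain ⟨m, v, X, hv, hvs, hvX, rfl, hz0⟩ := hz
  have hm : finrank ℂ (eigenpart μ τ) = m := by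
    rw [← hvs, finrank_span_eq_card hv, Fintype.card_fin]
  have hmem : ∀ i, v i ∈ eigenpart μ τ := fun i => by
    rw [← hvs]
    exact Submodule.subset_span (Set.mem_range_self i)
  refine ⟨m, fun i => φ (v i), c • X, ?_, ?_, fun i => ⟨?_, ?_⟩, ?_, ?_⟩
  · exact hv.map' (φ : Q.W →ₗ[ℂ] P.W) (LinearMap.ker_eq_bot.2 φ.injective)
  · rw [← h.map_eigenpart τ, ← hvs, Submodule.map_span, ← Set.range_comp]
    rfl
  · have h3 : Submodule.span Qbar (Q.B : Set Q.W) ≤
        (Submodule.span Qbar (P.B : Set P.W)).comap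
          ((φ : Q.W →ₗ[ℂ] P.W).restrictScalars Qbar) := by
      rw [Submodule.span_le]
      intro x hx
      exact Submodule.subset_span (h.betti x hx)
    exact h3 (hvX i).1
  · have h3 := hD _ (hvX i).2 (Submodule.sum_mem _ fun j _ => Submodule.smul_mem _ _ (hmem j))
    rw [map_sum, Finset.smul_sum] at h3
    have h4 : ∑ j, (c • X) i j • φ (v j) = ∑ j, c • φ (X i j • v j) := by
      refine Finset.sum_congr rfl fun j _ => ?_
      rw [map_smul, smul_smul, Matrix.smul_apply, smul_eq_mul]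
    rw [h4]
    exact h3
  · rw [hm, Matrix.det_smul, Fintype.card_fin]
  · rw [hm]
    exact mul_ne_zero (pow_ne_zero _ hc) hz0

end GD
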