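import Pool.Agent.H51.GD.Xi
import Pool.Agent.H27.GD.RkOne

/-!
# Polarisations of the structures of rank one over a number field
-/

set_option autoImplicit false

noncomputable section

namespace GD.DT

open Complex GD NumberField

variable {K : Type} [Field K] [NumberField K]

/-- The bilinear form attached to an element of `K`. -/
def rkForm (ξ : K) : ((K →+* ℂ) → ℂ) →ₗ[ℂ] ((K →+* ℂ) → ℂ) →ₗ[ℂ] ℂ :=
  LinearMap.mk₂ ℂ
    (fun (x y : (K →+* ℂ) → ℂ) => ∑ σ, σ ξ * x σ * y (ComplexEmbedding.conjugate σ))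
    (fun x x' y => by
      rw [← Finset.sum_add_distrib]
      exact Finset.sum_congr rfl fun σ _ => by rw [Pi.add_apply]; ring)
    (fun a x y => by
      rw [Finset.smul_sum]
      exact Finset.sum_congr rfl fun σ _ => by
        rw [Pi.smul_apply, smul_eq_mul, smul_eq_mul]; ring)
    (fun x y y' => by
      rw [← Finset.sum_add_distrib]
      exact Finset.sum_congr rfl fun σ _ => by rw [Pi.add_apply]; ring)
    (fun a x y => by
      rw [Finset.smul_sum]
      exact Finset.sum_congr rfl fun σ _ => by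
        rw [Pi.smul_apply, smul_eq_mul, smul_eq_mul]; ring)

theorem rkForm_apply (ξ : K) (x y : (K →+* ℂ) → ℂ) :
    rkForm ξ x y = ∑ σ, σ ξ * x σ * y (ComplexEmbedding.conjugate σ) := rfl

/-- A structure of rank one over `K` is polarised, if `K` has an automorphism which is complex
conjugation for all embeddings, and the products of conjugate periods are those of the Tate
structures. -/
theorem RkOne.exists_pol (r : RkOne K) (c : K ≃+* K)
    (hc : ∀ (σ : K →+* ℂ) x, σ (c x) = (starRingEnd ℂ) (σ x))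
    (hper : ∀ σ, ∃ a : ℂ, IsAlgebraic ℚ a ∧
      r.c σ * r.c (ComplexEmbedding.conjugate σ) = (2 * Real.pi * I) ^ r.wt * a) :
    Nonempty (Pol r.str) := by
  classical
  obtain ⟨ξ, -, hξ⟩ := exists_xi c hc r.wt r.p r.p_add
  refine ⟨⟨rkForm ξ, ?_, ?_, ?_, ?_⟩⟩
  · rintro (x : (K →+* ℂ) → ℂ) ⟨a, ha⟩ (y : (K →+* ℂ) → ℂ) ⟨b, hb⟩
    refine ⟨Algebra.trace ℚ K (ξ * a * c b), ?_⟩
    refine (?_ : (∑ σ : K →+* ℂ, σ ξ * x σ * y (ComplexEmbedding.conjugate σ)) = _)
    rw [trace_sum]
    refine Finset.sum_congr rfl fun σ _ => ?_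
    rw [ha, hb, map_mul, map_mul, hc]
    rfl
  · intro (x : (K →+* ℂ) → ℂ) hx (y : (K →+* ℂ) → ℂ) hy
    choose a ha using hx
    choose b hb using hy
    choose u hu hu' using hper
    refine ⟨∑ σ, σ ξ * a σ * b (ComplexEmbedding.conjugate σ) * u σ, ?_, ?_⟩
    · refine (mem_algebraicClosure_iff' (F := ℚ) (E := ℂ)).1 ?_ |>.isAlgebraic
      refine sum_mem fun σ _ => ?_
      refine mul_mem (mul_mem (mul_mem ?_ (a σ).2) (b _).2) ?_
      · exact mem_algebraicClosure_iff.2 (emb_alg K σ ξ)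
      · exact mem_algebraicClosure_iff.2 (hu σ)
    · refine (?_ : (∑ σ : K →+* ℂ, σ ξ * x σ * y (ComplexEmbedding.conjugate σ)) = _)
      rw [Finset.mul_sum]
      refine Finset.sum_congr rfl fun σ _ => ?_
      rw [ha, hb]
      have h1 := hu' σ
      calc σ ξ * ((a σ : ℂ) * r.c σ) * ((b (ComplexEmbedding.conjugate σ) : ℂ) *
            r.c (ComplexEmbedding.conjugate σ)) =
          σ ξ * a σ * b (ComplexEmbedding.conjugate σ) *
            (r.c σ * r.c (ComplexEmbedding.conjugate σ)) := by ring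
        _ = _ := by
          rw [h1]
          change _ = (2 * Real.pi * I) ^ r.wt * _
          ring
  · intro p q hpq (x : (K →+* ℂ) → ℂ) hx (y : (K →+* ℂ) → ℂ) hy
    refine (?_ : (∑ σ : K →+* ℂ, σ ξ * x σ * y (ComplexEmbedding.conjugate σ)) = _)
    refine Finset.sum_eq_zero fun σ _ => ?_
    by_cases h1 : r.p σ = p
    · have h2 : r.p (ComplexEmbedding.conjugate σ) ≠ q := by
        intro h
        apply hpq
        rw [← h1, ← h]
        exact r.p_add σ
      rw [hy _ h2, mul_zero]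
    · rw [hx _ h1, mul_zero, zero_mul]
  · intro p _ (x : (K →+* ℂ) → ℂ) hx hx0
    choose ρ hρ hρ' using hξ
    let x' : (K →+* ℂ) → ℂ := r.str.conj x
    have hterm : ∀ σ : K →+* ℂ, I ^ (2 * (p : ℤ) - r.wt) *
        (σ ξ * x σ * x' (ComplexEmbedding.conjugate σ)) =
        ((ρ σ * Complex.normSq (x σ) : ℝ) : ℂ) := by
      intro σ
      have h1 : x' (ComplexEmbedding.conjugate σ) = (starRingEnd ℂ) (x σ) := by
        change (starRingEnd ℂ) (x (ComplexEmbedding.conjugate (ComplexEmbedding.conjugate σ))) = _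
        rw [GD.conj_conj]
      rw [h1]
      by_cases h2 : r.p σ = p
      · have h3 := hρ' σ
        rw [h2] at h3
        calc I ^ (2 * (p : ℤ) - r.wt) * (σ ξ * x σ * (starRingEnd ℂ) (x σ)) =
            (I ^ (2 * (p : ℤ) - r.wt) * σ ξ) * (x σ * (starRingEnd ℂ) (x σ)) := by ring
          _ = _ := by
            rw [h3, Complex.mul_conj]
            push_cast
            ring
      · have h3 : x σ = 0 := hx σ h2
        rw [h3]
        simp
    refine ⟨∑ σ, ρ σ * Complex.normSq (x σ), ?_, ?_⟩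
    · have h1 : ∃ σ, x σ ≠ 0 := by
        by_contra h
        push Not at h
        exact hx0 (funext h)
      obtain ⟨σ, hσ⟩ := h1
      have h2 : ∀ τ ∈ (Finset.univ : Finset (K →+* ℂ)), 0 ≤ ρ τ * Complex.normSq (x τ) :=
        fun τ _ => mul_nonneg (hρ τ).le (Complex.normSq_nonneg _)
      exact Finset.sum_pos' h2 ⟨σ, Finset.mem_univ σ, mul_pos (hρ σ) (Complex.normSq_pos.2 hσ)⟩
    · refine (?_ : I ^ (2 * (p : ℤ) - r.wt) *
        (∑ σ : K →+* ℂ, σ ξ * x σ * x' (ComplexEmbedding.conjugate σ)) = _)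
      rw [Finset.mul_sum]
      push_cast
      exact Finset.sum_congr rfl fun σ _ => by
        rw [hterm σ]
        push_cast
        ring

end GD.DT
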