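import Pool.Agent.H51.GD.Per

/-!
# The Hodge types of two variations which are related by a flat isomorphism

PROOF. `Q.B` is a vector space over `K` (`h.one`, `h.act`), all eigenparts have the dimension
`dim_K Q.B` (see `exists_sub` in H26/FM/Fac.lean and the lemmas on `eig` in H26/DT for `isSub_top`).
If `w` in `eigenpart μ τ ⊓ hodge p` is not zero, `conj w` lies in `eigenpart μ (conj τ) ⊓
hodge (wt - p)`, `φ` commutes with `conj` (it respects the rational forms), and the types of
`φ (conj w) = conj (φ w)` give `n_add`. `factorType`: `φ` maps `eigenpart μ τ ⊓ hodge p` onto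
`eigenpart κ τ ⊓ hodge (p + n τ)` (the sum of the images is everything, the pieces are
independent), so `factorType κ τ = ∑ (p + n τ) dim (eigenpart μ τ ⊓ hodge p)`.
-/

noncomputable section

namespace GD

open Complex NumberField Module

/-- The trace of a projector is the dimension of the part. -/
private theorem typ_trace {S : Str} {K : Type} [Field K] [NumberField K] {M : Submodule ℚ S.W}
    (ι : K →+* Module.End ℂ (S.cx M)) (τ : K →+* ℂ) :
    LinearMap.trace ℂ (S.cx M) (prj ι τ) = finrank ℂ (eig ι τ) := by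
  rw [← trOn_one (eig ι τ), trOn_eig ι 1 (fun _ h => h) (fun _ _ => rfl) τ, prj, map_sum]
  refine Finset.sum_congr rfl fun i _ => ?_
  rw [map_smul, smul_eq_mul]
  rfl

/-- A linear map which respects the rational forms commutes with the complex conjugation. -/
private theorem typ_conj {S T : Str} (f : S.W →ₗ[ℂ] T.W) (hf : ∀ b ∈ S.B, f b ∈ T.B) (w : S.W) :
    f (S.conj w) = T.conj (f w) := by
  refine DT.Str.induction S (P := fun w => f (S.conj w) = T.conj (f w)) w ?_ ?_ ?_
  · simp
  · intro a b ha hb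
    rw [map_add, map_add, ha, hb, map_add, map_add]
  · intro c b hb
    rw [DT.conj_smul, map_smul, S.conj_B b hb, map_smul, DT.conj_smul, T.conj_B _ (hf b hb)]

section part

variable {S : Str} {K : Type} [Field K] (κ : Act K S)

private theorem typ_bot (h : κ 1 = 0) (τ : K →+* ℂ) : eigenpart κ τ = ⊥ := by
  rw [eq_bot_iff]
  intro w hw
  have h1 := (mem_eigenpart κ τ w).1 hw 1
  rw [map_one τ, one_smul, h, LinearMap.zero_apply] at h1
  exact h1.symm

variable (hκ : ∀ a, IsHom S S (κ a))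

include hκ

private theorem typ_graded [NumberField K] (τ : K →+* ℂ) :
    eigenpart κ τ ≤ ⨆ p, eigenpart κ τ ⊓ S.hodge p := by
  by_cases h : κ 1 = 0
  · rw [typ_bot κ h τ]
    exact bot_le
  · obtain ⟨M, ι, hM, -, hι, heig, -⟩ := exists_sub κ hκ h
    rw [← heig τ]
    exact eig_hodge ι hM hι τ

private theorem typ_conj_mem {τ : K →+* ℂ} {w : S.W} (hw : w ∈ eigenpart κ τ) :
    S.conj w ∈ eigenpart κ (ComplexEmbedding.conjugate τ) := by
  rw [mem_eigenpart] at hw ⊢
  intro a
  rw [typ_conj (κ a) (hκ a).betti, hw a, DT.conj_smul]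
  rfl

end part

/-- All parts have the same dimension. -/
theorem finrank_eigenpart {K : Type} [Field K] [NumberField K] (S : Str) (μ : Act K S)
    (hμ : ∀ a, IsHom S S (μ a)) (h1 : μ 1 = 1) (τ : K →+* ℂ) :
    finrank ℂ (eigenpart μ τ) * finrank ℚ K = finrank ℂ S.W := by
  by_cases h : μ 1 = 0
  · have hs : Subsingleton S.W := by
      refine ⟨fun x y => ?_⟩
      have h2 : ∀ w : S.W, w = 0 := fun w => by
        have h3 := LinearMap.congr_fun (h1.symm.trans h) w
        exact h3
      rw [h2 x, h2 y]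
    rw [typ_bot μ h τ, finrank_bot, zero_mul, finrank_zero_of_subsingleton]
  · obtain ⟨M, ι, hM, -, hι, heig, -, hcx, -⟩ := exists_sub μ hμ h
    have htop : S.cx M = ⊤ := by
      rw [hcx, h1]
      exact LinearMap.range_id
    have h2 : LinearMap.trace ℂ (S.cx M) (∑ τ : K →+* ℂ, prj ι τ) = finrank ℂ S.W := by
      have h3 : (∑ τ : K →+* ℂ, prj ι τ) = LinearMap.id := by
        ext x
        rw [LinearMap.sum_apply, sum_prj]
        rfl
      rw [h3, LinearMap.trace_id, htop, finrank_top]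
    rw [map_sum] at h2
    have h4 : ∀ τ' : K →+* ℂ, LinearMap.trace ℂ (S.cx M) (prj ι τ') =
        finrank ℂ (eigenpart μ τ) := by
      intro τ'
      rw [typ_trace, finrank_eig ι hM hι τ' τ, heig τ]
    rw [Finset.sum_congr rfl fun τ' _ => h4 τ', Finset.sum_const, Finset.card_univ, card_emb,
      nsmul_eq_mul] at h2
    rw [mul_comm]
    exact_mod_cast h2

variable {P Q : Str} {V : TwoFam P Q} {K : Type} [Field K] [NumberField K] {κ : Act K P}
  {μ : Act K Q} {φ : Q.W ≃ₗ[ℂ] P.W} {n : (K →+* ℂ) → ℕ}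

/-- The sum of the shifts for conjugate embeddings is the difference of the weights. -/
theorem TwoFam.Iso.n_add (h : V.Iso κ μ φ n) (hQ : Nontrivial Q.W) (τ : K →+* ℂ) :
    n τ + n (ComplexEmbedding.conjugate τ) + Q.wt = P.wt := by
  have hμ : ∀ a, IsHom Q Q (μ a) := fun a => (h.act a).2
  -- a nonzero vector of some type
  obtain ⟨p, w, hw, hw0⟩ : ∃ p, ∃ w ∈ eigenpart μ τ ⊓ Q.hodge p, w ≠ 0 := by
    by_contra hcon
    push Not at hcon
    have h1 : eigenpart μ τ = ⊥ := by
      rw [eq_bot_iff]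
      refine (typ_graded μ hμ τ).trans (iSup_le fun p w hw => ?_)
      rw [Submodule.mem_bot]
      exact hcon p w hw
    have h2 := finrank_eigenpart Q μ hμ h.one.2 τ
    rw [h1, finrank_bot, zero_mul] at h2
    have h3 : 0 < finrank ℂ Q.W := finrank_pos
    omega
  have hp : p ≤ Q.wt := by
    by_contra hcon
    have h1 := hw.2
    rw [Q.hodge_large p (by omega)] at h1
    exact hw0 ((Submodule.mem_bot ℂ).1 h1)
  have hφ0 : φ w ≠ 0 := fun h1 => hw0 (φ.map_eq_zero_iff.1 h1)
  have hφ := h.hodge τ p w hw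
  have hp' : p + n τ ≤ P.wt := by
    by_contra hcon
    rw [P.hodge_large _ (by omega)] at hφ
    exact hφ0 ((Submodule.mem_bot ℂ).1 hφ)
  have hc : φ (Q.conj w) = P.conj (φ w) := typ_conj (φ : Q.W →ₗ[ℂ] P.W) h.betti w
  have h1 := h.hodge (ComplexEmbedding.conjugate τ) (Q.wt - p) (Q.conj w)
    ⟨typ_conj_mem μ hμ hw.1, Q.hodge_conj p hp w hw.2⟩
  rw [hc] at h1
  have h2 := P.hodge_conj _ hp' _ hφ
  have h3 : P.conj (φ w) ≠ 0 := by
    intro h4
    have h5 := congrArg P.conj h4
    rw [DT.conj_conj', map_zero] at h5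
    exact hφ0 h5
  have h4 := P.hodge_eq h3 h1 h2
  omega

/-- The Hodge types of the determinants. -/
theorem TwoFam.Iso.factorType_eq (h : V.Iso κ μ φ n) (τ : K →+* ℂ) :
    factorType κ τ = factorType μ τ + finrank ℂ (eigenpart μ τ) * n τ := by
  have hμ : ∀ a, IsHom Q Q (μ a) := fun a => (h.act a).2
  have hκ : ∀ a, IsHom P P (κ a) := fun a => (h.act a).1
  -- extension of the sums
  have key : ∀ (R : Str) (L : Submodule ℂ R.W) (m : ℕ), R.wt ≤ m →
      ∑ p ∈ Finset.range (m + 1), p * finrank ℂ (L ⊓ R.hodge p : Submodule ℂ R.W) =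
        ∑ p ∈ Finset.range (R.wt + 1), p * finrank ℂ (L ⊓ R.hodge p : Submodule ℂ R.W) := by
    intro R L m hm
    symm
    refine Finset.sum_subset (fun x hx => ?_) fun p _ hp => ?_
    · rw [Finset.mem_range] at hx ⊢
      omega
    · rw [Finset.mem_range] at hp
      rw [R.hodge_large p (by omega), inf_bot_eq, finrank_bot, mul_zero]
  set N := Q.wt + P.wt with hN
  set a : ℕ → ℕ := fun p => finrank ℂ (eigenpart μ τ ⊓ Q.hodge p : Submodule ℂ Q.W) with ha
  set b : ℕ → ℕ := fun p => finrank ℂ (eigenpart κ τ ⊓ P.hodge p : Submodule ℂ P.W) with hb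
  have h1 : ∑ p ∈ Finset.range (N + 1), a p = finrank ℂ (eigenpart μ τ) :=
    finrank_graded (typ_graded μ hμ τ) (by omega)
  have h2 : ∑ p ∈ Finset.range (n τ + (N + 1)), b p = finrank ℂ (eigenpart μ τ) := by
    have h3 := finrank_graded (typ_graded κ hκ τ) (n := n τ + N) (by omega)
    rw [← h.map_eigenpart τ, LinearEquiv.finrank_map_eq φ] at h3
    rw [← h3, h.map_eigenpart τ]
    rfl
  have hab : ∀ p, a p ≤ b (n τ + p) := by
    intro p
    have h3 : (eigenpart μ τ ⊓ Q.hodge p).map (φ : Q.W →ₗ[ℂ] P.W) ≤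
        eigenpart κ τ ⊓ P.hodge (n τ + p) := by
      rintro _ ⟨w, hw, rfl⟩
      refine ⟨?_, ?_⟩
      · rw [← h.map_eigenpart τ]
        exact ⟨w, hw.1, rfl⟩
      · have h4 := h.hodge τ p w hw
        rwa [add_comm] at h4
    have h5 := Submodule.finrank_mono h3
    rwa [LinearEquiv.finrank_map_eq φ] at h5
  rw [Finset.sum_range_add] at h2
  have h3 : ∑ p ∈ Finset.range (N + 1), a p ≤ ∑ p ∈ Finset.range (N + 1), b (n τ + p) :=
    Finset.sum_le_sum fun p _ => hab p
  have h4 : ∑ p ∈ Finset.range (n τ), b p = 0 := by omega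
  have h5 : ∑ p ∈ Finset.range (N + 1), a p = ∑ p ∈ Finset.range (N + 1), b (n τ + p) := by omega
  have h6 := (Finset.sum_eq_sum_iff_of_le fun p _ => hab p).1 h5
  have h7 : factorType κ τ = ∑ p ∈ Finset.range (n τ + (N + 1)), p * b p :=
    (key P (eigenpart κ τ) (n τ + N) (by omega)).symm
  have h8 : factorType μ τ = ∑ p ∈ Finset.range (N + 1), p * a p :=
    (key Q (eigenpart μ τ) N (by omega)).symm
  have h9 : ∑ p ∈ Finset.range (n τ), p * b p = 0 := by
    rw [Finset.sum_eq_zero_iff] at h4 ⊢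
    intro p hp
    rw [h4 p hp, mul_zero]
  rw [h7, h8, Finset.sum_range_add, h9, zero_add, ← h1, Finset.sum_mul,
    ← Finset.sum_add_distrib]
  refine Finset.sum_congr rfl fun p hp => ?_
  rw [← h6 p hp]
  ring

end GD
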