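import Pool.Agent.H26.DT.FamStr

/-!
# Elements of a number field with prescribed signs
-/

set_option autoImplicit false

noncomputable section

namespace GD

open Complex NumberField

variable {K : Type} [Field K] [NumberField K]

/-- The image of `K` is dense in the vectors which are symmetric under complex conjugation. -/
theorem exists_near (t : (K →+* ℂ) → ℂ)
    (ht : ∀ σ, t (ComplexEmbedding.conjugate σ) = (starRingEnd ℂ) (t σ)) {δ : ℝ} (hδ : 0 < δ) :
    ∃ x : K, ∀ σ : K →+* ℂ, ‖σ x - t σ‖ < δ := by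
  classical
  obtain ⟨b, hb⟩ := exists_basisB K
  -- the coordinates are real
  have hsum : ∀ σ, t σ = ∑ i, b.repr t i * σ (bas K i) := by
    intro σ
    have h1 := congrFun (b.sum_repr t) σ
    rw [Finset.sum_apply] at h1
    rw [← h1]
    exact Finset.sum_congr rfl fun i _ => by rw [Pi.smul_apply, hb, smul_eq_mul]
  have hreal : ∀ i, (starRingEnd ℂ) (b.repr t i) = b.repr t i := by
    have h1 : t = ∑ i, (starRingEnd ℂ) (b.repr t i) • b i := by
      funext σ
      have h2 := hsum (ComplexEmbedding.conjugate σ)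
      rw [ht] at h2
      have h3 := congrArg (starRingEnd ℂ) h2
      rw [Complex.conj_conj, map_sum] at h3
      rw [h3, Finset.sum_apply]
      refine Finset.sum_congr rfl fun i _ => ?_
      rw [Pi.smul_apply, hb, smul_eq_mul, map_mul]
      congr 1
      change (starRingEnd ℂ) ((starRingEnd ℂ) (σ (bas K i))) = _
      rw [Complex.conj_conj]
    intro i
    have h2 := b.repr_sum_self (fun i => (starRingEnd ℂ) (b.repr t i))
    rw [← h1] at h2
    exact (congrFun h2 i).symm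
  have hre : ∀ i, b.repr t i = ((b.repr t i).re : ℂ) := fun i =>
    (Complex.conj_eq_iff_re.1 (hreal i)).symm
  -- a bound for the basis
  obtain ⟨C, hC0, hC⟩ : ∃ C : ℝ, 0 < C ∧ ∀ (i) (σ : K →+* ℂ), ‖σ (bas K i)‖ ≤ C := by
    refine ⟨1 + ∑ i, ∑ σ : K →+* ℂ, ‖σ (bas K i)‖, by positivity, fun i σ => ?_⟩
    have h1 : ‖σ (bas K i)‖ ≤ ∑ σ : K →+* ℂ, ‖σ (bas K i)‖ :=
      Finset.single_le_sum (f := fun σ : K →+* ℂ => ‖σ (bas K i)‖)
        (fun _ _ => norm_nonneg _) (Finset.mem_univ σ)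
    have h2 : ∑ σ : K →+* ℂ, ‖σ (bas K i)‖ ≤ ∑ i, ∑ σ : K →+* ℂ, ‖σ (bas K i)‖ :=
      Finset.single_le_sum (f := fun i => ∑ σ : K →+* ℂ, ‖σ (bas K i)‖)
        (fun _ _ => Finset.sum_nonneg fun _ _ => norm_nonneg _) (Finset.mem_univ i)
    linarith
  have hη : 0 < δ / (C * (Module.finrank ℚ K + 1)) := by positivity
  have hq : ∀ i, ∃ q : ℚ, |(b.repr t i).re - q| < δ / (C * (Module.finrank ℚ K + 1)) := fun i =>
    exists_rat_near _ hη
  choose q hq using hq
  refine ⟨∑ i, q i • bas K i, fun σ => ?_⟩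
  have h1 : σ (∑ i, q i • bas K i) - t σ =
      ∑ i, ((q i : ℂ) - ((b.repr t i).re : ℂ)) * σ (bas K i) := by
    rw [hsum, map_sum, ← Finset.sum_sub_distrib]
    refine Finset.sum_congr rfl fun i _ => ?_
    rw [Algebra.smul_def, map_mul, sub_mul, ← hre i]
    congr 2
    simp
  rw [h1]
  calc ‖∑ i, ((q i : ℂ) - ((b.repr t i).re : ℂ)) * σ (bas K i)‖
      ≤ ∑ i, ‖((q i : ℂ) - ((b.repr t i).re : ℂ)) * σ (bas K i)‖ := norm_sum_le _ _
    _ ≤ ∑ _i : Fin (Module.finrank ℚ K), δ / (C * (Module.finrank ℚ K + 1)) * C := by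
        refine Finset.sum_le_sum fun i _ => ?_
        rw [norm_mul]
        have h2 : ‖(q i : ℂ) - ((b.repr t i).re : ℂ)‖ ≤
            δ / (C * (Module.finrank ℚ K + 1)) := by
          have h3 : (q i : ℂ) - ((b.repr t i).re : ℂ) = (((q i : ℝ) - (b.repr t i).re : ℝ) : ℂ) := by
            push_cast
            ring
          rw [h3, Complex.norm_real, Real.norm_eq_abs, abs_sub_comm]
          exact (hq i).le
        exact mul_le_mul h2 (hC i σ) (norm_nonneg _) hη.le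
    _ = δ * (Module.finrank ℚ K / (Module.finrank ℚ K + 1)) := by
        rw [Finset.sum_const, Finset.card_univ, Fintype.card_fin, nsmul_eq_mul]
        field_simp
    _ < δ := by
        have h4 : (Module.finrank ℚ K : ℝ) / (Module.finrank ℚ K + 1) < 1 := by
          rw [div_lt_one (by positivity)]
          linarith
        nlinarith

/-- Elements with prescribed signs, for a field with an automorphism `c` which is complex
conjugation for all embeddings: `i ^ (2 p - w) σ(ξ)` is a positive real number for all `σ`. -/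
theorem exists_xi (c : K ≃+* K) (hc : ∀ (σ : K →+* ℂ) x, σ (c x) = (starRingEnd ℂ) (σ x))
    (w : ℕ) (p : (K →+* ℂ) → ℕ) (hp : ∀ σ, p σ + p (ComplexEmbedding.conjugate σ) = w) :
    ∃ ξ : K, (∀ σ : K →+* ℂ, (starRingEnd ℂ) (σ ξ) = (-1) ^ w * σ ξ) ∧
      ∀ σ : K →+* ℂ, ∃ r : ℝ, 0 < r ∧ I ^ (2 * (p σ : ℤ) - w) * σ ξ = r := by
  classical
  have hI : ∀ k : ℤ, (starRingEnd ℂ) (I ^ k) = I ^ (-k) := by
    intro k
    rw [map_zpow₀, Complex.conj_I, zpow_neg, ← inv_zpow, Complex.inv_I]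
  let t : (K →+* ℂ) → ℂ := fun σ => I ^ ((w : ℤ) - 2 * (p σ : ℤ))
  have ht : ∀ σ, t (ComplexEmbedding.conjugate σ) = (starRingEnd ℂ) (t σ) := by
    intro σ
    change I ^ ((w : ℤ) - 2 * (p (ComplexEmbedding.conjugate σ) : ℤ)) =
      (starRingEnd ℂ) (I ^ ((w : ℤ) - 2 * (p σ : ℤ)))
    rw [hI]
    congr 1
    have := hp σ
    push_cast [← this]
    ring
  have hI4 : ∀ k : ℤ, (I ^ k) * I ^ k = (-1) ^ k := by
    intro k
    rw [← mul_zpow, Complex.I_mul_I]
  have htt : ∀ σ, (starRingEnd ℂ) (t σ) = (-1) ^ w * t σ := by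
    intro σ
    have h0 : I ≠ 0 := Complex.I_ne_zero
    have h1 : (starRingEnd ℂ) (t σ) = I ^ (-((w : ℤ) - 2 * (p σ : ℤ))) := hI _
    rw [h1]
    change _ = (-1) ^ w * I ^ ((w : ℤ) - 2 * (p σ : ℤ))
    have h2 : (-1 : ℂ) ^ w = I ^ (2 * (w : ℤ)) := by
      rw [zpow_mul]
      norm_num [Complex.I_sq, zpow_ofNat]
    rw [h2, ← zpow_add₀ h0]
    have h3 : I ^ (2 * (w : ℤ) + ((w : ℤ) - 2 * (p σ : ℤ))) =
        I ^ (-((w : ℤ) - 2 * (p σ : ℤ))) * (I ^ (4 : ℤ)) ^ ((w : ℤ) - (p σ : ℤ)) := by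
      rw [← zpow_mul, ← zpow_add₀ h0]
      congr 1
      ring
    rw [h3]
    have h4 : I ^ (4 : ℤ) = 1 := by
      norm_num [zpow_ofNat]
    rw [h4, one_zpow, mul_one]
  obtain ⟨x, hx⟩ := exists_near t ht (δ := 1) one_pos
  have hcx : ∀ σ : K →+* ℂ, σ (x + (-1) ^ w * c x) = σ x + (-1) ^ w * (starRingEnd ℂ) (σ x) := by
    intro σ
    rw [map_add, map_mul, hc, map_pow, map_neg, map_one]
  refine ⟨x + (-1) ^ w * c x, fun σ => ?_, fun σ => ?_⟩
  · rw [hcx, map_add, map_mul, Complex.conj_conj, map_pow, map_neg, map_one, mul_add, ← mul_assoc,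
      ← pow_add, ← two_mul, pow_mul]
    norm_num
    exact add_comm _ _
  · rw [hcx]
    have h0 : I ≠ 0 := Complex.I_ne_zero
    set u : ℂ := I ^ (2 * (p σ : ℤ) - w) with hu
    have hut : u * t σ = 1 := by
      change I ^ (2 * (p σ : ℤ) - w) * I ^ ((w : ℤ) - 2 * (p σ : ℤ)) = 1
      rw [← zpow_add₀ h0]
      have : (2 * (p σ : ℤ) - w) + ((w : ℤ) - 2 * (p σ : ℤ)) = 0 := by ring
      rw [this, zpow_zero]
    have hnu : ‖u‖ = 1 := by
      rw [hu, norm_zpow, Complex.norm_I, one_zpow]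
    have hcu : (starRingEnd ℂ) u = (-1) ^ w * u := by
      have h1 : (starRingEnd ℂ) u * ((-1) ^ w * t σ) = 1 := by
        rw [← htt, ← map_mul, hut, map_one]
      have h2 : ((-1 : ℂ) ^ w * u) * ((-1) ^ w * t σ) = 1 := by
        have : ((-1 : ℂ) ^ w * u) * ((-1) ^ w * t σ) = ((-1) ^ w * (-1) ^ w) * (u * t σ) := by ring
        rw [this, hut, mul_one, ← pow_add, ← two_mul, pow_mul]
        norm_num
      have h3 : ((-1 : ℂ) ^ w * t σ) ≠ 0 := by
        intro h
        rw [h, mul_zero] at h1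
        exact zero_ne_one h1
      exact mul_right_cancel₀ h3 (h1.trans h2.symm)
    have h5 : u * (σ x + (-1) ^ w * (starRingEnd ℂ) (σ x)) = ((2 * (u * σ x).re : ℝ) : ℂ) := by
      have h6 : (starRingEnd ℂ) (u * σ x) = u * ((-1) ^ w * (starRingEnd ℂ) (σ x)) := by
        rw [map_mul, hcu]
        ring
      rw [mul_add, ← h6, Complex.add_conj]
    refine ⟨2 * (u * σ x).re, ?_, h5⟩
    have h7 : ‖u * σ x - 1‖ < 1 := by
      rw [← hut, ← mul_sub, norm_mul, hnu, one_mul]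
      exact hx σ
    have h8 : |(u * σ x - 1).re| ≤ ‖u * σ x - 1‖ := Complex.abs_re_le_norm _
    have h9 : (u * σ x - 1).re = (u * σ x).re - 1 := by simp
    rw [h9] at h8
    have h10 := (abs_lt.1 (lt_of_le_of_lt h8 h7)).1
    linarith

end GD
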